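import Pool.Agent.Helper27_Sob.Statements
import Pool.Agent.Helper27_Sob.Basic

/-!
# Module B4 of MP_60fe1d_an: the height function with spikes
-/

set_option autoImplicit false

open Set Filter Topology Metric MeasureTheory
open scoped ENNReal NNReal

namespace Pool.Agent.Helper42Sob

open Pool.Agent.Helper27Sob

/-- points of a compact set whose image is close to `z` are close to the fibre of `z` -/
lemma near_fiber {X W : Type*} [TopologicalSpace X] [MetricSpace W] {K : Set X}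
    (hK : IsCompact K) {f : X → W} (hf : Continuous f) (z : W) {U : Set X} (hU : IsOpen U)
    (h : ∀ q ∈ K, f q = z → q ∈ U) : ∃ δ > 0, ∀ q ∈ K, dist (f q) z < δ → q ∈ U := by
  have hc : IsClosed (f '' (K \ U)) := ((hK.diff hU).image hf).isClosed
  have hz : z ∈ (f '' (K \ U))ᶜ := by
    rintro ⟨q, ⟨hq, hqU⟩, rfl⟩
    exact hqU (h q hq rfl)
  obtain ⟨δ, hδ, hsub⟩ := Metric.isOpen_iff.1 hc.isOpen_compl z hz
  refine ⟨δ, hδ, fun q hq hd => ?_⟩
  by_contra hqU
  exact hsub hd ⟨q, ⟨hq, hqU⟩, rfl⟩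

section

variable {K C : Set E} {Y : E ≃ₜ Z × ℝ} {cap : CapData} {ρ τ : Z → ℝ} {n : Z → ℕ} {h0 : Z → ℝ}

lemma cont_fst (Y : E ≃ₜ Z × ℝ) : Continuous fun p => (Y p).1 := continuous_fst.comp Y.continuous

lemma cont_snd (Y : E ≃ₜ Z × ℝ) : Continuous fun p => (Y p).2 := continuous_snd.comp Y.continuous

/-- the formulas for `h0` -/
structure HData (K : Set E) (Y : E ≃ₜ Z × ℝ) (cap : CapData) (τ : Z → ℝ) (n : Z → ℕ)
    (h0 : Z → ℝ) : Prop where
  H1 : ∀ p ∈ K, (∀ o ∈ Mult K Y, (Y p).1 ∉ closedBall o (cap.r (n o))) → h0 (Y p).1 = (Y p).2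
  H2 : ∀ p ∈ K, ∀ o ∈ Mult K Y, (Y p).1 ∈ closedBall o (cap.r (n o)) → h0 (Y p).1 =
        (1 - cap.φ (n o) (dist (Y p).1 o)) * (Y p).2 + cap.φ (n o) (dist (Y p).1 o) * τ o

lemma phi_zero (cap : CapData) (m : ℕ) {t : ℝ} (ht : t ≤ 0) : cap.φ m t = 1 := by
  obtain ⟨δ, hδ, h⟩ := cap.φ_one m
  exact h t (by linarith)

lemma exists_h0 (hρ : ∀ o ∈ Mult K Y, 0 < ρ o ∧
        ρ o ≤ infDist o ((fun p => (Y p).1) '' C) / 2 ∧ ∃ p ∈ K, Y p = (o, τ o))
    (hdisj : ∀ o ∈ Mult K Y, ∀ o' ∈ Mult K Y, o ≠ o' →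
        Disjoint (closedBall o (ρ o)) (closedBall o' (ρ o')))
    (hn : ∀ o ∈ Mult K Y, cap.r (n o) ≤ ρ o) : ∃ h0, HData K Y cap τ n h0 := by
  classical
  have h1 : ∀ z : Z, ∃ p : E, (∃ q ∈ K, (Y q).1 = z) → p ∈ K ∧ (Y p).1 = z := by
    intro z
    by_cases h : ∃ q ∈ K, (Y q).1 = z
    · obtain ⟨q, hq⟩ := h
      exact ⟨q, fun _ => hq⟩
    · exact ⟨0, fun h' => absurd h' h⟩
  choose sel hsel using h1
  have h2 : ∀ z : Z, ∃ o : Z, (∃ o' ∈ Mult K Y, z ∈ closedBall o' (cap.r (n o'))) →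
      o ∈ Mult K Y ∧ z ∈ closedBall o (cap.r (n o)) := by
    intro z
    by_cases h : ∃ o' ∈ Mult K Y, z ∈ closedBall o' (cap.r (n o'))
    · obtain ⟨o, ho⟩ := h
      exact ⟨o, fun _ => ho⟩
    · exact ⟨0, fun h' => absurd h' h⟩
  choose oz hoz using h2
  have huniq : ∀ z : Z, ∀ o ∈ Mult K Y, ∀ o' ∈ Mult K Y, z ∈ closedBall o (cap.r (n o)) →
      z ∈ closedBall o' (cap.r (n o')) → o = o' := by
    intro z o ho o' ho' hz hz'
    by_contra hne
    have hd := hdisj o ho o' ho' hne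
    exact disjoint_left.1 hd (closedBall_subset_closedBall (hn o ho) hz)
      (closedBall_subset_closedBall (hn o' ho') hz')
  have hsel1 : ∀ p ∈ K, (Y p).1 ∉ Mult K Y → sel (Y p).1 = p := by
    intro p hp hm
    by_contra hne
    have := hsel (Y p).1 ⟨p, hp, rfl⟩
    exact hm ⟨p, hp, sel (Y p).1, this.1, Ne.symm hne, rfl, this.2⟩
  have hself : ∀ o ∈ Mult K Y, o ∈ closedBall o (cap.r (n o)) := fun o _ =>
    mem_closedBall_self (cap.r_pos (n o)).le
  refine ⟨fun z => if ∃ o ∈ Mult K Y, z ∈ closedBall o (cap.r (n o)) then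
    (1 - cap.φ (n (oz z)) (dist z (oz z))) * (Y (sel z)).2 +
      cap.φ (n (oz z)) (dist z (oz z)) * τ (oz z) else (Y (sel z)).2, ⟨?_, ?_⟩⟩
  · intro p hp hno
    rw [if_neg (by push Not; exact hno), hsel1 p hp (fun hm => hno _ hm (hself _ hm))]
  · intro p hp o ho hmem
    have hex : ∃ o ∈ Mult K Y, (Y p).1 ∈ closedBall o (cap.r (n o)) := ⟨o, ho, hmem⟩
    rw [if_pos hex]
    have h3 := hoz _ hex
    have h4 : oz (Y p).1 = o := huniq _ _ h3.1 _ ho h3.2 hmem
    rw [h4]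
    by_cases h5 : (Y p).1 ∈ Mult K Y
    · have h6 : (Y p).1 = o := huniq _ _ h5 _ ho (hself _ h5) hmem
      rw [h6, dist_self, phi_zero cap _ le_rfl]
      ring
    · rw [hsel1 p hp h5]

lemma mult_not_mem_P (hρ : ∀ o ∈ Mult K Y, 0 < ρ o ∧
        ρ o ≤ infDist o ((fun p => (Y p).1) '' C) / 2 ∧ ∃ p ∈ K, Y p = (o, τ o))
    (hn : ∀ o ∈ Mult K Y, cap.r (n o) ≤ ρ o) {c : E} (hc : c ∈ C) {o : Z} (ho : o ∈ Mult K Y) :
    (Y c).1 ∉ closedBall o (cap.r (n o)) := by
  intro h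
  have h1 := (hρ o ho).1
  have h2 := (hρ o ho).2.1
  have h3 : infDist o ((fun p => (Y p).1) '' C) ≤ dist o (Y c).1 :=
    infDist_le_dist_of_mem ⟨c, hc, rfl⟩
  have h4 : dist (Y c).1 o ≤ cap.r (n o) := h
  have h5 := hn o ho
  rw [dist_comm] at h4
  linarith

/-- local Lipschitz bound off the projection of `C` -/
lemma lip_off (hB3 : B3Statement) (hK : IsCompact K) (hC : IsCompact C) (hCK : C ⊆ K)
    (hCne : C.Nonempty) (hg : Generic K C Y) (hLL : LocLip Y Cᶜ)
    (hρ : ∀ o ∈ Mult K Y, 0 < ρ o ∧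
        ρ o ≤ infDist o ((fun p => (Y p).1) '' C) / 2 ∧ ∃ p ∈ K, Y p = (o, τ o))
    (hdisj : ∀ o ∈ Mult K Y, ∀ o' ∈ Mult K Y, o ≠ o' →
        Disjoint (closedBall o (ρ o)) (closedBall o' (ρ o')))
    (hn : ∀ o ∈ Mult K Y, cap.r (n o) ≤ ρ o) (hh : HData K Y cap τ n h0) :
    ∀ z ∈ ((fun p => (Y p).1) '' K) \ ((fun p => (Y p).1) '' C), ∃ r > 0, ∃ L : ℝ≥0,
        LipschitzOnWith L h0 (((fun p => (Y p).1) '' K) ∩ ball z r) := by
  rintro z ⟨⟨p₀, hp₀, hz⟩, hzC⟩
  simp only at hz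
  by_cases hzM : z ∈ Mult K Y
  · -- a multiple point: `h0` is constant near it
    obtain ⟨δ, hδ, hφ⟩ := cap.φ_one (n z)
    refine ⟨min δ (cap.r (n z)), lt_min hδ (cap.r_pos _), 0, ?_⟩
    have hconst : ∀ z' ∈ ((fun p => (Y p).1) '' K) ∩ ball z (min δ (cap.r (n z))), h0 z' = τ z := by
      rintro z' ⟨⟨q, hq, rfl⟩, hb⟩
      simp only at hb ⊢
      have hb' := mem_ball.1 hb
      rw [hh.H2 q hq z hzM (mem_closedBall.2 (hb'.le.trans (min_le_right _ _))),
        hφ _ (lt_of_lt_of_le hb' (min_le_left _ _))]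
      ring
    refine LipschitzOnWith.of_dist_le_mul fun x hx y hy => ?_
    rw [hconst x hx, hconst y hy, dist_self]
    simp
  -- not a multiple point
  set P : Set Z := (fun p => (Y p).1) '' C with hP
  have hPc : IsCompact P := hC.image (cont_fst Y)
  have hPne : P.Nonempty := hCne.image _
  have hp₀C : p₀ ∉ C := fun h => hzC ⟨p₀, h, hz⟩
  obtain ⟨r₁, hr₁, L₁, hL₁⟩ := hLL p₀ hp₀C
  obtain ⟨r₂, hr₂, L₂, hL₂⟩ := hg.g2 p₀ ⟨hp₀, hp₀C⟩
  obtain ⟨δ₁, hδ₁, hnear⟩ := near_fiber hK (cont_fst Y) z (isOpen_ball (x := p₀) (ε := min r₁ r₂))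
    (fun q hq hqz => by
      have : q = p₀ := by
        by_contra hne
        exact hzM ⟨q, hq, p₀, hp₀, hne, hqz, hz⟩
      rw [this]
      exact mem_ball_self (lt_min hr₁ hr₂))
  have hs : ∀ q ∈ K, ∀ q' ∈ K, dist (Y q).1 z < δ₁ → dist (Y q').1 z < δ₁ →
      |(Y q).2 - (Y q').2| ≤ L₁ * |L₂| * dist (Y q).1 (Y q').1 := by
    intro q hq q' hq' h h'
    have a1 := hnear q hq h
    have a2 := hnear q' hq' h'
    have b1 := hL₁.dist_le_mul q (ball_subset_ball (min_le_left _ _) a1) q'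
      (ball_subset_ball (min_le_left _ _) a2)
    have b2 := hL₂ q ⟨hq, ball_subset_ball (min_le_right _ _) a1⟩ q'
      ⟨hq', ball_subset_ball (min_le_right _ _) a2⟩
    have b3 : |(Y q).2 - (Y q').2| ≤ dist (Y q) (Y q') := by
      rw [← Real.dist_eq, Prod.dist_eq]
      exact le_max_right _ _
    rw [← dist_eq_norm, ← dist_eq_norm] at b2
    calc |(Y q).2 - (Y q').2| ≤ L₁ * dist q q' := b3.trans b1
      _ ≤ L₁ * (|L₂| * dist (Y q).1 (Y q').1) := by
          gcongr
          exact b2.trans (mul_le_mul_of_nonneg_right (le_abs_self _) dist_nonneg)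
      _ = _ := by ring
  -- the distance to `P`
  have hd0 : 0 < infDist z P := (hPc.isClosed.notMem_iff_infDist_pos hPne).1 hzC
  have hfin := (hB3 K C Y hK hC hCK hCne hg).2.2.1 (infDist z P / 2) (by positivity)
  set F : Set Z := {o ∈ Mult K Y | infDist z P / 2 ≤ infDist o P} with hF
  have hFmem : ∀ z' ∈ ball z (infDist z P / 4), ∀ o ∈ Mult K Y,
      z' ∈ closedBall o (cap.r (n o)) → o ∈ F := by
    intro z' hz' o ho hb
    refine ⟨ho, ?_⟩
    have c1 : dist z' z < infDist z P / 4 := hz'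
    have c2 : dist z' o ≤ cap.r (n o) := hb
    have c3 := hn o ho
    have c4 := (hρ o ho).2.1
    have c5 : infDist z P ≤ infDist z' P + dist z z' := infDist_le_infDist_add_dist
    have c6 : infDist z' P ≤ infDist o P + dist z' o := infDist_le_infDist_add_dist
    rw [dist_comm] at c5
    linarith
  -- bound for the heights
  obtain ⟨B, hB⟩ : ∃ B : ℝ, ∀ q ∈ K, |(Y q).2| ≤ B := by
    obtain ⟨B, hB⟩ := (hK.image (cont_snd Y)).isBounded.exists_norm_le
    exact ⟨B, fun q hq => by simpa using hB _ ⟨q, hq, rfl⟩⟩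
  -- local form of h0
  obtain ⟨δ₂, hδ₂, ψ, t, L₃, hψ01, hψL, hform⟩ : ∃ δ₂ > 0, ∃ (ψ : Z → ℝ) (t : ℝ) (L₃ : ℝ),
      (∀ z', ψ z' ∈ Icc (0 : ℝ) 1) ∧
      (∀ x ∈ ball z δ₂, ∀ y ∈ ball z δ₂, |ψ x - ψ y| ≤ |L₃| * dist x y) ∧
      ∀ q ∈ K, (Y q).1 ∈ ball z δ₂ → h0 (Y q).1 = (1 - ψ (Y q).1) * (Y q).2 + ψ (Y q).1 * t := by
    by_cases hsp : ∃ o ∈ Mult K Y, z ∈ closedBall o (cap.r (n o))
    · obtain ⟨o, ho, hzo⟩ := hsp
      have hcl : IsClosed (⋃ o' ∈ F \ {o}, closedBall o' (cap.r (n o'))) :=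
        (hfin.subset Set.sdiff_subset).isClosed_biUnion fun _ _ => isClosed_closedBall
      have hznot : z ∉ ⋃ o' ∈ F \ {o}, closedBall o' (cap.r (n o')) := by
        intro h
        simp only [mem_iUnion, Set.mem_sdiff, mem_singleton_iff] at h
        obtain ⟨o', ⟨ho', hne⟩, hmem⟩ := h
        exact disjoint_left.1 (hdisj o' ho'.1 o ho hne)
          (closedBall_subset_closedBall (hn o' ho'.1) hmem)
          (closedBall_subset_closedBall (hn o ho) hzo)
      obtain ⟨δ₃, hδ₃, hsub⟩ := Metric.isOpen_iff.1 hcl.isOpen_compl z hznot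
      have hdo : 0 < dist z o := dist_pos.2 (fun h => hzM (h ▸ ho))
      refine ⟨min δ₃ (min (infDist z P / 4) (dist z o / 2)), by positivity,
        fun z' => cap.φ (n o) (dist z' o), τ o, cap.w (dist z o / 2),
        fun z' => cap.φ_mem _ _, ?_, ?_⟩
      · intro x hx y hy
        have hx' : dist z o / 2 < dist x o := by
          have := mem_ball.1 (ball_subset_ball ((min_le_right _ _).trans (min_le_right _ _)) hx)
          have h2 := dist_triangle z x o
          rw [dist_comm z x] at h2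
          linarith
        have hy' : dist z o / 2 < dist y o := by
          have := mem_ball.1 (ball_subset_ball ((min_le_right _ _).trans (min_le_right _ _)) hy)
          have h2 := dist_triangle z y o
          rw [dist_comm z y] at h2
          linarith
        have key : ∀ a b : ℝ, dist z o / 2 < a → a ≤ b →
            |cap.φ (n o) a - cap.φ (n o) b| ≤ |cap.w (dist z o / 2)| * (b - a) := by
          intro a b ha hab
          have ha0 : 0 < a := by linarith
          refine (cap.φ_lip (n o) a b ha0 hab).trans ?_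
          have hw : cap.w a ≤ cap.w (dist z o / 2) :=
            cap.w_anti (mem_Ioi.2 (by linarith)) (mem_Ioi.2 ha0) ha.le
          have : 0 ≤ b - a := by linarith
          exact mul_le_mul_of_nonneg_right (hw.trans (le_abs_self _)) this
        have htri : |dist x o - dist y o| ≤ dist x y := abs_dist_sub_le x y o
        rcases le_total (dist x o) (dist y o) with h | h
        · refine (key _ _ hx' h).trans ?_
          gcongr
          have := neg_abs_le (dist x o - dist y o)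
          linarith
        · rw [abs_sub_comm]
          refine (key _ _ hy' h).trans ?_
          gcongr
          have := le_abs_self (dist x o - dist y o)
          linarith
      · intro q hq hb
        by_cases hmem : (Y q).1 ∈ closedBall o (cap.r (n o))
        · exact hh.H2 q hq o ho hmem
        · have hno : ∀ o' ∈ Mult K Y, (Y q).1 ∉ closedBall o' (cap.r (n o')) := by
            intro o' ho' hm'
            by_cases hoo : o' = o
            · rw [hoo] at hm'; exact hmem hm'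
            · have h1 := hFmem _ (ball_subset_ball ((min_le_right _ _).trans (min_le_left _ _)) hb)
                o' ho' hm'
              have h2 := hsub (ball_subset_ball (min_le_left _ _) hb)
              apply h2
              simp only [mem_iUnion, Set.mem_sdiff, mem_singleton_iff]
              exact ⟨o', ⟨h1, hoo⟩, hm'⟩
          rw [hh.H1 q hq hno]
          have h3 : cap.φ (n o) (dist (Y q).1 o) = 0 := by
            apply cap.φ_zero
            rw [mem_closedBall, not_le] at hmem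
            exact hmem.le
          simp only [h3]
          ring
    · push Not at hsp
      have hcl : IsClosed (⋃ o' ∈ F, closedBall o' (cap.r (n o'))) :=
        hfin.isClosed_biUnion fun _ _ => isClosed_closedBall
      have hznot : z ∉ ⋃ o' ∈ F, closedBall o' (cap.r (n o')) := by
        intro h
        simp only [mem_iUnion] at h
        obtain ⟨o', ho', hmem⟩ := h
        exact hsp o' ho'.1 hmem
      obtain ⟨δ₃, hδ₃, hsub⟩ := Metric.isOpen_iff.1 hcl.isOpen_compl z hznot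
      refine ⟨min δ₃ (infDist z P / 4), by positivity, fun _ => 0, 0, 0,
        fun _ => by simp, fun _ _ _ _ => by simp, ?_⟩
      intro q hq hb
      have hno : ∀ o' ∈ Mult K Y, (Y q).1 ∉ closedBall o' (cap.r (n o')) := by
        intro o' ho' hm'
        have h1 := hFmem _ (ball_subset_ball (min_le_right _ _) hb) o' ho' hm'
        have h2 := hsub (ball_subset_ball (min_le_left _ _) hb)
        apply h2
        simp only [mem_iUnion]
        exact ⟨o', h1, hm'⟩
      rw [hh.H1 q hq hno]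
      ring
  -- conclusion
  have hB0 : 0 ≤ B := (abs_nonneg _).trans (hB p₀ hp₀)
  refine ⟨min δ₁ δ₂, lt_min hδ₁ hδ₂, (L₁ * |L₂| + |L₃| * (|t| + B)).toNNReal, ?_⟩
  refine LipschitzOnWith.of_dist_le_mul ?_
  rintro x ⟨⟨q, hq, rfl⟩, hx⟩ y ⟨⟨q', hq', rfl⟩, hy⟩
  simp only at hx hy ⊢
  have hx1 := ball_subset_ball (min_le_left _ _) hx
  have hx2 := ball_subset_ball (min_le_right _ _) hx
  have hy1 := ball_subset_ball (min_le_left _ _) hy
  have hy2 := ball_subset_ball (min_le_right _ _) hy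
  rw [Real.coe_toNNReal _ (by positivity), hform q hq hx2, hform q' hq' hy2, Real.dist_eq]
  have e1 : (1 - ψ (Y q).1) * (Y q).2 + ψ (Y q).1 * t -
      ((1 - ψ (Y q').1) * (Y q').2 + ψ (Y q').1 * t) =
      (1 - ψ (Y q).1) * ((Y q).2 - (Y q').2) + (ψ (Y q).1 - ψ (Y q').1) * (t - (Y q').2) := by ring
  rw [e1]
  have d1 := hs q hq q' hq' hx1 hy1
  have d2 := hψL _ hx2 _ hy2
  have d3 : |t - (Y q').2| ≤ |t| + B := (abs_sub _ _).trans (by gcongr; exact hB q' hq')
  have d4 : |1 - ψ (Y q).1| ≤ 1 := by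
    rw [abs_le]
    have := hψ01 (Y q).1
    constructor <;> linarith [this.1, this.2]
  calc |(1 - ψ (Y q).1) * ((Y q).2 - (Y q').2) + (ψ (Y q).1 - ψ (Y q').1) * (t - (Y q').2)|
      ≤ |1 - ψ (Y q).1| * |(Y q).2 - (Y q').2| + |ψ (Y q).1 - ψ (Y q').1| * |t - (Y q').2| := by
        refine (abs_add_le _ _).trans ?_
        rw [abs_mul, abs_mul]
    _ ≤ 1 * (L₁ * |L₂| * dist (Y q).1 (Y q').1) + |L₃| * dist (Y q).1 (Y q').1 * (|t| + B) := by
        gcongr
    _ = _ := by ring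

/-- continuity at the projection of `C` -/
lemma cont_on (hK : IsCompact K) (hCK : C ⊆ K) (hg : Generic K C Y)
    (hρ : ∀ o ∈ Mult K Y, 0 < ρ o ∧
        ρ o ≤ infDist o ((fun p => (Y p).1) '' C) / 2 ∧ ∃ p ∈ K, Y p = (o, τ o))
    (hn : ∀ o ∈ Mult K Y, cap.r (n o) ≤ ρ o) (hh : HData K Y cap τ n h0)
    {c : E} (hc : c ∈ C) : ContinuousWithinAt h0 ((fun p => (Y p).1) '' K) (Y c).1 := by
  have hval : h0 (Y c).1 = (Y c).2 :=
    hh.H1 c (hCK hc) fun o ho => mult_not_mem_P hρ hn hc ho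
  rw [Metric.continuousWithinAt_iff]
  intro ε hε
  have hU : IsOpen {q : E | |(Y q).2 - (Y c).2| < ε} :=
    isOpen_lt ((cont_snd Y).sub continuous_const).abs continuous_const
  obtain ⟨δ, hδ, hnear⟩ := near_fiber hK (cont_fst Y) (Y c).1 hU (fun q hq hqz => by
    rw [hg.g1 c hc q hq hqz]
    simpa using hε)
  refine ⟨δ / 2, by positivity, ?_⟩
  rintro z' ⟨q, hq, rfl⟩ hd
  simp only at hd ⊢
  have h1 : |(Y q).2 - (Y c).2| < ε := hnear q hq (by linarith)
  rw [hval, Real.dist_eq]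
  by_cases hsp : ∃ o ∈ Mult K Y, (Y q).1 ∈ closedBall o (cap.r (n o))
  · obtain ⟨o, ho, hmem⟩ := hsp
    rw [hh.H2 q hq o ho hmem]
    obtain ⟨p, hp, hYp⟩ := (hρ o ho).2.2
    have h2 : dist (Y c).1 o ≤ 2 * dist (Y q).1 (Y c).1 := by
      have a1 : dist (Y q).1 o ≤ cap.r (n o) := hmem
      have a2 := hn o ho
      have a3 := (hρ o ho).2.1
      have a4 : infDist o ((fun p => (Y p).1) '' C) ≤ dist o (Y c).1 :=
        infDist_le_dist_of_mem ⟨c, hc, rfl⟩
      have a5 := dist_triangle o (Y q).1 (Y c).1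
      rw [dist_comm o (Y q).1] at a5
      rw [dist_comm (Y c).1 o]
      linarith
    have h3 : |(Y p).2 - (Y c).2| < ε := by
      apply hnear p hp
      rw [hYp]
      simp only
      rw [dist_comm]
      linarith
    rw [hYp] at h3
    simp only at h3
    have hφ := cap.φ_mem (n o) (dist (Y q).1 o)
    set u := cap.φ (n o) (dist (Y q).1 o) with hu
    have e1 : (1 - u) * (Y q).2 + u * τ o - (Y c).2 =
        (1 - u) * ((Y q).2 - (Y c).2) + u * (τ o - (Y c).2) := by ring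
    rw [e1]
    have h4 : |(1 - u) * ((Y q).2 - (Y c).2) + u * (τ o - (Y c).2)| ≤
        (1 - u) * |(Y q).2 - (Y c).2| + u * |τ o - (Y c).2| := by
      refine (abs_add_le _ _).trans ?_
      rw [abs_mul, abs_mul, abs_of_nonneg hφ.1, abs_of_nonneg (by linarith [hφ.2] : 0 ≤ 1 - u)]
    have h5 : max |(Y q).2 - (Y c).2| |τ o - (Y c).2| < ε := max_lt h1 h3
    refine lt_of_le_of_lt (h4.trans ?_) h5
    have m1 := le_max_left |(Y q).2 - (Y c).2| |τ o - (Y c).2|
    have m2 := le_max_right |(Y q).2 - (Y c).2| |τ o - (Y c).2|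
    have hu1 : 0 ≤ 1 - u := by linarith [hφ.2]
    nlinarith [mul_le_mul_of_nonneg_left m1 hu1, mul_le_mul_of_nonneg_left m2 hφ.1]
  · push Not at hsp
    rw [hh.H1 q hq hsp]
    exact h1

end

/-- B4 (from B3) -/
theorem b4 (hB3 : B3Statement) : B4Statement := by
  intro K C Y hK hC hCK hCne hg hLL cap ρ τ hρ hdisj n hn
  obtain ⟨h0, hh⟩ := exists_h0 (C := C) hρ hdisj hn
  have hlip := lip_off hB3 hK hC hCK hCne hg hLL hρ hdisj hn hh
  refine ⟨h0, hh.H1, hh.H2, ?_, hlip⟩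
  intro z hz
  by_cases hzC : z ∈ (fun p => (Y p).1) '' C
  · obtain ⟨c, hc, rfl⟩ := hzC
    exact cont_on hK hCK hg hρ hn hh hc
  · obtain ⟨r, hr, L, hL⟩ := hlip z ⟨hz, hzC⟩
    have h1 : ContinuousWithinAt h0 (((fun p => (Y p).1) '' K) ∩ ball z r) z :=
      hL.continuousOn z ⟨hz, mem_ball_self hr⟩
    exact (continuousWithinAt_inter (ball_mem_nhds z hr)).1 h1

end Pool.Agent.Helper42Sob
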