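import Pool.Agent.Helper27_Sob.Statements
import Pool.Agent.Helper27_Sob.Basic
import Pool.Agent.Helper42_Sob.B4

/-!
# Module B9 of MP_60fe1d_an: near almost every point of a two dimensional cell, the projection
of the skeleton is flat
-/

set_option autoImplicit false

open Set Filter Topology Metric MeasureTheory
open scoped ENNReal NNReal

namespace Pool.Agent.Helper42Sob

open Pool.Agent.Helper27Sob

lemma len_pos (F : Cell) : 0 < F.len := by
  unfold Cell.len ell
  positivity

lemma isClosed_carrier (F : Cell) : IsClosed F.carrier := by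
  have : F.carrier = ⋂ j, {x : E | |x j - F.center j| ≤ if Odd (F.q j) then F.len / 2 else 0} := by
    ext x
    simp [Cell.carrier]
  rw [this]
  refine isClosed_iInter fun j => ?_
  exact isClosed_le (by fun_prop) continuous_const

lemma sub_mem_dir {F : Cell} {x y : E} (hx : x ∈ F.carrier) (hy : y ∈ F.carrier) :
    x - y ∈ F.dir := by
  intro j hj
  have h1 := hx j
  have h2 := hy j
  rw [if_neg hj] at h1 h2
  have h3 := abs_nonpos_iff.1 h1
  have h4 := abs_nonpos_iff.1 h2
  simp only [Pi.sub_apply]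
  linarith

lemma inner_subset_carrier (F : Cell) : F.inner ⊆ F.carrier := by
  intro x hx j
  have := hx j
  split_ifs with h
  · rw [if_pos h] at this
    exact this.le
  · rw [if_neg h] at this
    rw [this, sub_self, abs_zero]

lemma exists_add_mem {F : Cell} {p : E} (hp : p ∈ F.inner) :
    ∃ r > 0, ∀ v ∈ F.dir, ‖v‖ < r → p + v ∈ F.carrier := by
  have h1 : ∀ j, ∃ r > 0, Odd (F.q j) → |p j - F.center j| + r ≤ F.len / 2 := by
    intro j
    by_cases hj : Odd (F.q j)
    · have := hp j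
      rw [if_pos hj] at this
      exact ⟨F.len / 2 - |p j - F.center j|, by linarith, fun _ => by linarith⟩
    · exact ⟨1, one_pos, fun h => absurd h hj⟩
  choose r hr hr2 using h1
  obtain ⟨j₀, hj₀⟩ := Finite.exists_min r
  refine ⟨r j₀, hr j₀, fun v hv hvn j => ?_⟩
  by_cases hj : Odd (F.q j)
  · rw [if_pos hj]
    have h2 := hr2 j hj
    have h3 : |v j| ≤ ‖v‖ := norm_le_pi_norm v j
    have h4 := hj₀ j
    calc |(p + v) j - F.center j| = |(p j - F.center j) + v j| := by
          simp only [Pi.add_apply]; ring_nf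
      _ ≤ |p j - F.center j| + |v j| := abs_add_le _ _
      _ ≤ F.len / 2 := by linarith
  · rw [if_neg hj]
    have h2 := hp j
    rw [if_neg hj] at h2
    have h3 := hv j hj
    simp only [Pi.add_apply]
    rw [h2, h3]
    simp

lemma ae_proj_inner (F : Cell) : ∀ᵐ x : E, x ∈ F.thick → F.proj x ∈ F.inner := by
  have hl := len_pos F
  have h1 : ∀ᵐ x : E, x ∉ sphere F.center (F.len / 2) := by
    have : (volume : Measure E) (sphere F.center (F.len / 2)) = 0 :=
      Measure.addHaar_sphere _ _ _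
    exact measure_eq_zero_iff_ae_notMem.1 this
  filter_upwards [h1] with x hx hmem j
  have h2 : x ∈ ball F.center (F.len / 2) := by
    rw [mem_ball]
    refine lt_of_le_of_ne hmem ?_
    exact hx
  by_cases hj : Odd (F.q j)
  · rw [if_pos hj]
    have h3 : F.proj x j = x j := by simp [Cell.proj, hj]
    rw [h3]
    have h4 : |x j - F.center j| ≤ ‖x - F.center‖ := norm_le_pi_norm (x - F.center) j
    rw [mem_ball, dist_eq_norm] at h2
    linarith
  · rw [if_neg hj]
    simp [Cell.proj, hj]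

lemma ae_proj_not_mem {F : Cell} (hF : F.dim = 2) {Q : Set E} (hQ : Q.Countable) :
    ∀ᵐ x : E, F.proj x ∉ Q := by
  have hj : ∃ j, Odd (F.q j) := by
    have : 0 < F.dim := by omega
    obtain ⟨j, hj⟩ := Finset.card_pos.1 this
    exact ⟨j, (Finset.mem_filter.1 hj).2⟩
  obtain ⟨j, hj⟩ := hj
  have h1 : ∀ q ∈ Q, ∀ᵐ x : E, x j ≠ q j := by
    intro q _
    have : (volume : Measure E) {x : E | x j = q j} = 0 := by
      rw [volume_pi]
      exact Measure.pi_hyperplane (fun _ : Fin 5 => (volume : Measure ℝ)) j (q j)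
    exact measure_eq_zero_iff_ae_notMem.1 this
  have := (ae_ball_iff hQ).2 h1
  filter_upwards [this] with x hx hmem
  exact hx _ hmem (by simp [Cell.proj, hj])

/-- near an inner point of a two dimensional cell, the skeleton is the cell -/
lemma skeleton_local (h1 : A1Statement) {C : Set E} (hC : IsClosed C) {R : ℝ} {F : Cell}
    (hF : F ∈ K2 C R) {p : E} (hp : p ∈ F.inner) :
    ∃ r > 0, ∀ q ∈ KK C R, q ∈ ball p r → q ∈ F.carrier := by
  obtain ⟨-, -, a3, a4, a5, -⟩ := h1 C hC
  have hl := len_pos F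
  have hpc := inner_subset_carrier F hp
  have hdisj : Disjoint (closedBall p (F.len / 2)) C := by
    rw [disjoint_left]
    intro c hc hcC
    have := a4 F hF.1 p hpc c hcC
    rw [mem_closedBall, dist_comm, dist_eq_norm] at hc
    linarith
  have hfin := a5 (closedBall p (F.len / 2)) (isCompact_closedBall _ _) hdisj
  set T : Set Cell := {F' | IsC C F' ∧ (F'.carrier ∩ closedBall p (F.len / 2)).Nonempty} with hT
  have hT' : ({F' ∈ T | F' ∈ K2 C R ∧ F' ≠ F} : Set Cell).Finite := hfin.subset fun F' h => h.1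
  have hcl : IsClosed (⋃ F' ∈ {F' ∈ T | F' ∈ K2 C R ∧ F' ≠ F}, F'.carrier) :=
    hT'.isClosed_biUnion fun F' _ => isClosed_carrier F'
  have hpn : p ∉ ⋃ F' ∈ {F' ∈ T | F' ∈ K2 C R ∧ F' ≠ F}, F'.carrier := by
    intro h
    simp only [mem_iUnion] at h
    obtain ⟨F', ⟨-, hF', hne⟩, hmem⟩ := h
    have := (a3 F' F p hF'.1 hF.1 hmem hp).2.1
    rcases this with h | h
    · exact hne h.symm
    · rw [hF.2.1, hF'.2.1] at h
      exact lt_irrefl _ h
  obtain ⟨r, hr, hsub⟩ := Metric.isOpen_iff.1 hcl.isOpen_compl p hpn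
  refine ⟨min r (F.len / 2), by positivity, fun q hq hb => ?_⟩
  have hb1 := ball_subset_ball (min_le_left _ _) hb
  have hb2 := ball_subset_closedBall (ball_subset_ball (min_le_right _ _) hb)
  rcases hq with hq | hq
  · exact absurd hq (disjoint_left.1 hdisj hb2)
  · simp only [mem_iUnion] at hq
    obtain ⟨F', hF', hmem⟩ := hq
    by_contra hnot
    apply hsub hb1
    simp only [mem_iUnion]
    refine ⟨F', ⟨⟨hF'.1, q, hmem, hb2⟩, hF', ?_⟩, hmem⟩
    rintro rfl
    exact hnot hmem

/-- B9 (from A1, B3, B8) -/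
theorem b9 (h1 : A1Statement) (h3 : B3Statement) (h8 : B8Statement) : B9Statement := by
  intro C R Y hC hCne hg hLL hLS F hF
  have hK : IsCompact (KK C R) := (h1 C hC.isClosed).2.2.2.2.2 hC R
  have hCK : C ⊆ KK C R := subset_union_left
  obtain ⟨b1, -, -, b4, -⟩ := h3 (KK C R) C Y hK hC hCK hCne hg
  set K := KK C R with hKdef
  -- the countable set of points over the multiple points
  have hQ : ({p ∈ K | (Y p).1 ∈ Mult K Y} : Set E).Countable := by
    have : ({p ∈ K | (Y p).1 ∈ Mult K Y} : Set E) = ⋃ o ∈ Mult K Y, {p ∈ K | (Y p).1 = o} := by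
      ext p
      simp only [mem_ofPred_eq, mem_iUnion]
      constructor
      · rintro ⟨hp, hm⟩
        exact ⟨_, hm, hp, rfl⟩
      · rintro ⟨o, ho, hp, rfl⟩
        exact ⟨hp, ho⟩
    rw [this]
    exact b1.biUnion fun o ho => (b4 o ho).countable
  have hcarK : F.carrier ⊆ K := fun q hq => Or.inr (mem_iUnion₂.2 ⟨F, hF, hq⟩)
  have h8' := h8 F Y Cᶜ hC.isClosed.isOpen_compl Y.continuous.continuousOn hLS
  filter_upwards [ae_proj_inner F, ae_proj_not_mem hF.2.1 hQ, h8'] with x hx1 hx2 hx3 hxF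
  have hpin := hx1 hxF
  set p := F.proj x with hp
  have hpcar := inner_subset_carrier F hpin
  have hpK : p ∈ K := hcarK hpcar
  have hpC : p ∉ C := by
    intro hc
    have := (h1 C hC.isClosed).2.2.2.1 F hF.1 p hpcar p hc
    rw [sub_self, norm_zero] at this
    exact absurd (len_pos F) (not_lt.2 this)
  have hpM : (Y p).1 ∉ Mult K Y := fun h => hx2 ⟨hpK, h⟩
  obtain ⟨δ₀, hδ₀, L, hL⟩ := hx3 hpC
  obtain ⟨r₂, hr₂, L₂, hL₂⟩ := hg.g2 p ⟨hpK, hpC⟩
  obtain ⟨r₃, hr₃, hloc⟩ := skeleton_local h1 hC.isClosed hF hpin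
  obtain ⟨r₄, hr₄, hadd⟩ := exists_add_mem hpin
  -- linear lower bound
  have hlow : ∀ v ∈ F.dir, ‖v‖ ≤ (|L₂| + 1) * ‖(L v).1‖ := by
    intro v hv
    by_cases hv0 : v = 0
    · rw [hv0, norm_zero]
      positivity
    have hvn : 0 < ‖v‖ := norm_pos_iff.2 hv0
    set s : ℝ := min δ₀ (min r₂ r₄) / (2 * ‖v‖) with hs
    have hs0 : 0 < s := by positivity
    have hsv : ‖s • v‖ = min δ₀ (min r₂ r₄) / 2 := by
      rw [norm_smul, Real.norm_eq_abs, abs_of_pos hs0, hs]
      field_simp
    have hmin : 0 < min δ₀ (min r₂ r₄) := by positivity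
    have hsdir : s • v ∈ F.dir := F.dir.smul_mem s hv
    have c1 : ‖s • v‖ < δ₀ := by
      rw [hsv]; have := min_le_left δ₀ (min r₂ r₄); linarith
    have c2 : ‖s • v‖ < r₂ := by
      rw [hsv]; have := (min_le_right δ₀ (min r₂ r₄)).trans (min_le_left _ _); linarith
    have c4 : ‖s • v‖ < r₄ := by
      rw [hsv]; have := (min_le_right δ₀ (min r₂ r₄)).trans (min_le_right _ _); linarith
    have hmem : p + s • v ∈ F.carrier := hadd _ hsdir c4
    have hb : ∀ r : ℝ, ‖s • v‖ < r → p + s • v ∈ ball p r := by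
      intro r h
      rw [mem_ball, dist_eq_norm, add_sub_cancel_left]
      exact h
    have hY := hL p (mem_ball_self hδ₀) (s • v) hsdir (hb _ c1)
    have hlip := hL₂ (p + s • v) ⟨hcarK hmem, hb _ c2⟩ p ⟨hpK, mem_ball_self hr₂⟩
    rw [add_sub_cancel_left, hY] at hlip
    have e1 : (Y p + L (s • v)).1 - (Y p).1 = s • (L v).1 := by
      rw [map_smul]
      simp
    rw [e1, norm_smul, norm_smul, Real.norm_eq_abs, abs_of_pos hs0] at hlip
    have h5 : s * ‖v‖ ≤ s * (L₂ * ‖(L v).1‖) := by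
      calc s * ‖v‖ ≤ L₂ * (s * ‖(L v).1‖) := hlip
        _ = _ := by ring
    have h6 : ‖v‖ ≤ L₂ * ‖(L v).1‖ := le_of_mul_le_mul_left h5 hs0
    refine h6.trans (mul_le_mul_of_nonneg_right ?_ (norm_nonneg _))
    have := le_abs_self L₂
    linarith
  set δ := min δ₀ (min r₄ (1 / (|L₂| + 1))) with hδ
  have hL₂pos : 0 < |L₂| + 1 := by positivity
  have hδpos : 0 < δ := by positivity
  have hlow2 : ∀ v ∈ F.dir, δ * ‖v‖ ≤ ‖(L v).1‖ := by
    intro v hv
    have h5 := hlow v hv
    have h6 : δ ≤ 1 / (|L₂| + 1) := (min_le_right _ _).trans (min_le_right _ _)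
    calc δ * ‖v‖ ≤ 1 / (|L₂| + 1) * ((|L₂| + 1) * ‖(L v).1‖) := by gcongr
      _ = ‖(L v).1‖ := by field_simp
  have hLδ : ∀ z ∈ ball p δ, ∀ τ ∈ F.dir, z + τ ∈ ball p δ → Y (z + τ) = Y z + L τ := by
    intro z hz τ hτ hzτ
    exact hL z (ball_subset_ball (min_le_left _ _) hz) τ hτ
      (ball_subset_ball (min_le_left _ _) hzτ)
  obtain ⟨δ₁, hδ₁, hnear⟩ := near_fiber hK (cont_fst Y) (Y p).1
    (isOpen_ball (x := p) (ε := min δ r₃))
    (fun q hq hqz => by
      have : q = p := by
        by_contra hne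
        exact hpM ⟨q, hq, p, hpK, hne, hqz, rfl⟩
      rw [this]
      exact mem_ball_self (lt_min hδpos hr₃))
  have hq2 : ∀ q ∈ K, (Y q).1 ∈ ball (Y p).1 δ₁ → q ∈ ball p δ ∧ q - p ∈ F.dir := by
    intro q hq hb
    have h5 := hnear q hq hb
    exact ⟨ball_subset_ball (min_le_left _ _) h5,
      sub_mem_dir (hloc q hq (ball_subset_ball (min_le_right _ _) h5)) hpcar⟩
  refine ⟨L, δ, hδpos, hLδ, hlow2, min δ₁ (δ * δ), by positivity, ?_, ?_⟩
  · intro q hq hb
    exact hq2 q hq (ball_subset_ball (min_le_left _ _) hb)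
  · intro z hz
    constructor
    · rintro ⟨q, hq, hqz⟩
      simp only at hqz
      rw [← hqz] at hz ⊢
      obtain ⟨h5, h6⟩ := hq2 q hq (ball_subset_ball (min_le_left _ _) hz)
      refine ⟨q - p, h6, ?_⟩
      have h7 := hLδ p (mem_ball_self hδpos) (q - p) h6 (by rwa [add_sub_cancel])
      rw [add_sub_cancel] at h7
      simp only [ContinuousLinearMap.coe_coe, ContinuousLinearMap.comp_apply,
        ContinuousLinearMap.coe_fst']
      rw [h7]
      simp
    · rintro ⟨v, hv, hvz⟩
      simp only [ContinuousLinearMap.coe_coe, ContinuousLinearMap.comp_apply,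
        ContinuousLinearMap.coe_fst'] at hvz
      have h5 := hlow2 v hv
      have h6 : ‖(L v).1‖ < δ * δ := by
        rw [hvz, ← dist_eq_norm]
        exact lt_of_lt_of_le (mem_ball.1 hz) (min_le_right _ _)
      have h7 : ‖v‖ < δ := by
        have : δ * ‖v‖ < δ * δ := lt_of_le_of_lt h5 h6
        exact lt_of_mul_lt_mul_left this hδpos.le
      have h8 : p + v ∈ F.carrier :=
        hadd v hv (lt_of_lt_of_le h7 ((min_le_right _ _).trans (min_le_left _ _)))
      refine ⟨p + v, hcarK h8, ?_⟩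
      have h9 := hLδ p (mem_ball_self hδpos) v hv (by
        rw [mem_ball, dist_eq_norm, add_sub_cancel_left]; exact h7)
      simp only
      rw [h9]
      simp only [Prod.fst_add]
      rw [hvz]
      abel

end Pool.Agent.Helper42Sob
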